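import Pool.Agent.helper7.EP.AllB
import Pool.Agent.helper82.OG.All
import Pool.Agent.helper98.TSC.WIN3
import Pool.Agent.helper52.TSC.TOT3
import Pool.Agent.helper9.TSC.LW3
import Pool.Agent.helper50.TSC.NRS
import Pool.Agent.helper78.TSC.LHK3
import Pool.Agent.helper48.TSC.RHK3
import Pool.Agent.helper42.TSC.EVB3
import Pool.Agent.helper85.TSC.XB3
import Pool.Agent.helper22.TSC.LTY3
import Pool.Agent.helper10.TSC.RTY3
import Pool.Agent.helper22.TSC.CNB3
import Pool.Agent.helper42.TSC.DIG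
import Pool.Agent.helper89.TSC.BDK
import Pool.Agent.helper50.TSC.PMC
import Pool.Agent.helper90.TSC.GDK
import Pool.Agent.helper50.TSC.MNS
import Pool.Agent.helper49.TSC.FIN

/-!
# Project tsc (MP_ebc808_nt), assembly
-/

set_option autoImplicit false

namespace Pool.Agent.TSC

open Pool.Agent.EP

theorem all_TOT3 : TOT3_stmt := TOT3 (WIN3 (FP SQ) (RT SQ) BIL GEO1) (BAD GEO2)
theorem all_EVB3 : EVB3_stmt := EVB3 all_IDK (LHK3 JN NRS) (RHK3 NRS)
theorem all_CNB3 : CNB3_stmt := CNB3 all_EVB3 XT1 XB3 LTY3 (RTY3 (OG.MUL SQ))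
theorem all_GDK : GDK_stmt := GDK DIG BDK PMC
theorem all_MNS : MNS_stmt := MNS (LW3 all_TOT3) all_CNB3 PMC all_GDK
theorem all_FIN : FIN_stmt := FIN all_MNS TQ

end Pool.Agent.TSC
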