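import Pool.Agent.helper7.EP.AllB
import Pool.Agent.helper82.OG.All

/-!
# Project ts: (MP_ebc808_nt): the two scales inequality

**Theorem** (FIN). There are `C, X₀` such that for all `X ≥ X₀`, all `Z ≤ X` and all parities `(e, f) ≠ (1, 1)`:
`X √Z ≤ (log X)^C N_e(X) max(N_f(Z), √X)`, where `N_e(x)` is the number of `n ≤ x` with `p(n) = e mod 2`.

Paper proof: /team-store/TT_ebc808_twoscales_helper67.md. `A = 2^a`; `k` prime, `k = 1465 mod 5016`, so `k = 1 mod 24` and `k = 2 mod 11, 19`;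
`M = 24 n + 3 - A = r0 p₁ p₂` with `(p₁|k) = (p₂|k) ≠ 0`. Notation of project ep (Pool/Agent/helper7/EP/Defs.lean, SpecA.lean, SpecB.lean, SpecL.lean), whose modules
are copied with small changes.

Module `XX`: file `Pool/Agent/<seat>/TSC/XX.lean`, `import Pool.Agent.helper67.TSC.Spec`, `set_option autoImplicit false`,
namespace `Pool.Agent.TSC`, `open Finset Pool.Agent.EP`, theorem `XX (hYY : YY_stmt) ... : XX_stmt`, auxiliary lemmas prefixed `XX_`, no sorry, no double quotes.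
-/

set_option autoImplicit false

open Finset

noncomputable section

namespace Pool.Agent.TSC

open Pool.Agent.EP

/-! ### Definitions -/

/-- The number of `n ≤ X` with `p(n) = e` modulo 2. -/
def sN (e X : ℕ) : ℕ := #{n ∈ range (X + 1) | Fintype.card (Nat.Partition n) % 2 = e}

/-- The prime multipliers in `(K, 2K]`. -/
def PM (K : ℕ) : Finset ℕ := {k ∈ Ioc K (2 * K) | k.Prime ∧ k % 5016 = 1465}

/-- `n` is special for `k`, with prime factors above `y`. -/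
def SpK (a y k n : ℕ) : Prop :=
  ∃ p₁ p₂ : ℕ, p₁.Prime ∧ p₂.Prime ∧ y < p₁ ∧ y < p₂ ∧ jacobiSym p₁ k = jacobiSym p₂ k ∧
    jacobiSym p₁ k ≠ 0 ∧ 24 * n + 3 = r0 a * p₁ * p₂ + 2 ^ a

/-- Exceptional `n` of the first type. -/
def XT (n : ℕ) : Prop := ∃ u : ℕ, 3 * u ^ 2 = 24 * n + 3

/-- A left value of parity `f`. -/
def VL (f a k n : ℕ) : Prop :=
  ∃ r ∈ rs (2 ^ a) n, 1 ≤ (n - tri r) / 2 ^ a ∧ 24 ∣ k * (24 * ((n - tri r) / 2 ^ a) - 1) + 1 ∧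
    Fintype.card (Nat.Partition ((k * (24 * ((n - tri r) / 2 ^ a) - 1) + 1) / 24)) % 2 = f

/-- A right value of parity `e`. -/
def VR (e a k n : ℕ) : Prop :=
  ∃ w ∈ ws (k * 2 ^ a), 24 ∣ (k * 2 ^ a - 3 * w ^ 2) * (24 * n + 3 - 2 ^ a) + 1 ∧
    Fintype.card (Nat.Partition
      (((k * 2 ^ a - 3 * w ^ 2) * (24 * n + 3 - 2 ^ a) + 1) / 24)) % 2 = e

open Classical in
/-- The primes `≡ c mod 24` of the set `S` in `[y, y + t)`. -/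
def WS (S : Set ℕ) (c y t : ℕ) : Finset ℕ := {p ∈ Wd c y t | p ∈ S}

/-- The pairs of primes `≡ c mod 24` of `S` in `[y, 2y + t)` with parity `e` of the block function. -/
def PS (S : Set ℕ) (a c e y t : ℕ) : Finset (ℕ × ℕ) :=
  {p ∈ WS S c y (y + t) ×ˢ WS S c y (y + t) | #(rs (2 ^ a) (nu a p.1 p.2)) % 2 = e}

/-! ### Both parities for special numbers -/

/-- **WIN3**: copy of WIN (Pool/Agent/helper65/EP/WIN.lean) with `WS S` for `Wd`. -/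
def WIN3_stmt : Prop := ∀ (S : Set ℕ) (a j c e y y₁ y₂ : ℕ), 5 ≤ a → 3 ≤ j → j ≤ a → 2 ^ a ≤ y →
  y ≤ y₁ → y₁ ≤ 2 * y → y ≤ y₂ → y₂ ≤ 2 * y → c < 24 → Nat.Coprime c 6 → e < 2 →
  Good a j e y₁ y₂ →
  4 * (2 ^ (a + 2)) ^ 4 ≤
    (2 ^ (a + 2 - j)) ^ 3 * (#(WS S c y₁ (2 ^ (a - j))) * #(WS S c y₂ (2 ^ (a - j)))) →
  2 ^ (a + 2 - j) * (#(WS S c y₁ (2 ^ (a - j))) * #(WS S c y₂ (2 ^ (a - j)))) ≤
    2 * 2 ^ (a + 2) * #{p ∈ WS S c y₁ (2 ^ (a - j)) ×ˢ WS S c y₂ (2 ^ (a - j)) |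
      #(rs (2 ^ a) (nu a p.1 p.2)) % 2 = e}

/-- **TOT3**: copy of TOT (Pool/Agent/helper30/EP/TOT.lean) with `WS S` for `Wd`. -/
def TOT3_stmt : Prop := ∀ (S : Set ℕ) (a j c e y N₀ : ℕ), 5 ≤ a → 3 ≤ j → j ≤ a → 2 ^ a ≤ y → c < 24 →
  Nat.Coprime c 6 → e < 2 → N₀ ≤ #(WS S c y y) →
  16 * (2 ^ (a + 2)) ^ 4 * (y / 2 ^ (a - j) + 1) ^ 2 ≤ (2 ^ (a + 2 - j)) ^ 3 * N₀ ^ 2 →
  120 * 2 ^ (a - j) * ((y / 2 ^ (a - j) + 1) / 2 ^ j + 1) ≤ N₀ →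
  N₀ ^ 4 ≤ 256 * 2 ^ j * y ^ 2 * #(PS S a c e y (2 ^ (a - j)))

/-- **LW3**: as LW2 (Pool/Agent/helper67/EP/LW2.lean), with logarithms, for an arbitrary prime `k`. Proof. `S` := the primes with `(p|k) = 1` or those
with `(p|k) = -1`, whichever has more elements in `WS S 1 y y` (`primes_ap 24 1`: at least `c y/log y` primes, at most one of them divides `k`). -/
def LW3_stmt : Prop := ∃ C X₀ : ℕ, ∀ X a e k : ℕ, X₀ ≤ X → Real.log X ^ C ≤ (2 : ℝ) ^ a →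
  16 * 4 ^ a ≤ X → e < 2 → k.Prime →
  (X : ℝ) / Real.log X ^ C ≤
    (Set.ncard {n : ℕ | n ≤ X ∧ SpK a (Nat.sqrt X / 4) k n ∧ #(rs (2 ^ a) n) % 2 = e} : ℝ)

/-! ### The identity for special numbers -/

/-- **NRS** (short, 80 lines). Quadratic residues. Put `M = 24n+3-2^a = r0 p₁ p₂`. First part: suppose `k ∣ M - 3u²`. Legendre symbols modulo the odd prime `k` (`jacobiSym` at a prime is `legendreSym`,
or work with `quadraticChar (ZMod k)`): `(3M|k) = ((3u)²|k) ∈ {0, 1}`; but `(3M|k) = (3|k)(r0|k)(p₁|k)(p₂|k)`, `(p₁|k)(p₂|k) = 1`, `(3|k) = (k|3) = 1` (`k = 1 mod 12`; `jacobiSym.quadratic_reciprocity_one_mod_four`),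
`(r0|k) = (k|r0) = (2|r0) = -1` (`k = 1 mod 4`, `k = 2 mod 11` and `mod 19`; `r0 = 11` or `19`; use `jacobiSym.mod_left` and `decide`/`norm_num`). Second part: suppose `r0 ∣ k 2^a - 3w²`. Then modulo `r0` the number `3 k 2^a = (3w)²` is a
square; it is not `0` (`k = 2 mod r0`). `a` even, `r0 = 11`: `2^a` is a square, `3 = 5²`, `k = 2` is not a square modulo `11`. `a` odd, `r0 = 19`: `2^(a-1)` is a square, `3 * 2 = 6 = 5²`, `k = 2` is not a square modulo `19`. -/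
def NRS_stmt : Prop := ∀ a y k n : ℕ, k.Prime → k % 5016 = 1465 →
  (SpK a y k n → ∀ u : ℕ, ¬ (k : ℤ) ∣ ((24 * n + 3 - 2 ^ a : ℕ) : ℤ) - 3 * (u : ℤ) ^ 2) ∧
  ∀ w ∈ ws (k * 2 ^ a), ¬ r0 a ∣ k * 2 ^ a - 3 * w ^ 2

/-- **LHK3** (medium: copy of LHK, Pool/Agent/helper89/EP/LHK.lean; uses JN, NRS). The left side of the identity. Differences to LHK: `M' < 0`: the term vanishes unless `M' = -k`, i.e. `3u² = M + k 2^a`, excluded by NRS (`k ∣ M - 3u²`).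
`k` does not divide `M' = (M - 3u²)/2^a` by NRS. `m ≥ 1` since `m = 0` means `24 n + 3 = 3u²`, excluded by `¬ XT n`. -/
def LHK3_stmt : Prop := ∀ a y k n : ℕ, 3 ≤ a → k.Prime → k % 5016 = 1465 → SpK a y k n → ¬ XT n →
  (∑ u ∈ us a k ((24 * n + 3 - 2 ^ a : ℕ) : ℤ),
      JG ac k ((((24 * n + 3 - 2 ^ a : ℕ) : ℤ) - 3 * (u : ℤ) ^ 2) / 2 ^ a) =
    ∑ r ∈ rs (2 ^ a) n, pp ((k * (24 * ((n - tri r) / 2 ^ a) - 1) + 1) / 24)) ∧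
  ∀ r ∈ rs (2 ^ a) n, 1 ≤ (n - tri r) / 2 ^ a ∧ 24 ∣ k * (24 * ((n - tri r) / 2 ^ a) - 1) + 1

/-- **RHK3** (medium: copy of RHK, Pool/Agent/helper49/EP/RHK.lean; uses NRS). The right side of the identity. Proof. `M = 24n+3-2^a = r0 p₁ p₂`, `j = k 2^a - 3w² > 0`. Neither `p₁` nor `p₂` divides `j` (not XB), `r0` does not (NRS,
`r0` is prime), so `gcd(j, M) = 1` and `JG ac j M = ac (j M)`; `j = 2^a - 3 mod 24`, `M = 3 - 2^a mod 24`, so `j M = 23 mod 24`. -/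
def RHK3_stmt : Prop := ∀ a y k n w : ℕ, 3 ≤ a → k.Prime → k % 5016 = 1465 → SpK a y k n →
  ¬ XB a y k n → w ∈ ws (k * 2 ^ a) →
  JG ac (k * 2 ^ a - 3 * w ^ 2) ((24 * n + 3 - 2 ^ a : ℕ) : ℤ) =
      pp (((k * 2 ^ a - 3 * w ^ 2) * (24 * n + 3 - 2 ^ a) + 1) / 24) ∧
    24 ∣ (k * 2 ^ a - 3 * w ^ 2) * (24 * n + 3 - 2 ^ a) + 1

/-- **EVB3** (short, 80 lines; compare Pool/Agent/helper65/EP/EVB.lean; IDK, LHK3, RHK3). Proof. If there is no left value of parity `f` and no right value of parity `e` then all `pp` in LHK3 are `1 - f` and all `pp` in RHK3 are `1 - e` (in `ZMod 2`), so IDK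
(`k` is prime to `6`) gives `(1-f) #(rs (2^a) n) = (1-e) #(ws (k 2^a))` in `ZMod 2`, which contradicts the hypothesis. -/
def EVB3_stmt : Prop := ∀ e f a y k n : ℕ, e < 2 → f < 2 → 3 ≤ a → k.Prime → k % 5016 = 1465 →
  SpK a y k n → ¬ XT n → ¬ XB a y k n →
  ((1 - f) * #(rs (2 ^ a) n) + (1 - e) * #(ws (k * 2 ^ a))) % 2 = 1 →
  VL f a k n ∨ VR e a k n

/-! ### Counting -/

/-- **XT1** (short, 20 lines). Proof: `u` determines `n`, `u² = 8n + 1 ≤ 8X + 1`. -/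
def XT1_stmt : Prop := ∀ X : ℕ, Set.ncard {n : ℕ | n ≤ X ∧ XT n} ≤ Nat.sqrt (8 * X + 1) + 1

/-- **XB3** (medium: copy of XB1, Pool/Agent/helper85/EP/XB1.lean). Proof: `w ∈ ws (k 2^a)`: `3w² < k 2^a ≤ 2K 2^a`, so `w ≤ Nat.sqrt (2K 2^a)`. For each `w` the number
`j = k 2^a - 3 w^2` satisfies `0 < j < 2K 2^a ≤ y³`; it has at most two prime divisors `> y` (three would give `j > y³`). For each prime
`p > y ≥ 3` the number of `n ≤ X` with `24n+3 > 2^a`, `p ∣ 24n+3-2^a` is at most `X/p + 1 ≤ X/y + 1` (one class mod `p`). -/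
def XB3_stmt : Prop := ∀ a y k K X : ℕ, 3 ≤ y → k ≤ 2 * K → 2 * K * 2 ^ a ≤ y ^ 3 →
  Set.ncard {n : ℕ | n ≤ X ∧ 2 ^ a < 24 * n + 3 ∧ XB a y k n} ≤
    2 * (Nat.sqrt (2 * K * 2 ^ a) + 1) * (X / y + 1)

/-- **LTY3** (medium: copy of LTY, Pool/Agent/helper92/EP/LTY.lean). The pairs with a left value of parity `f`. Proof. `s' = (k (24m-1) + 1)/24`, `m = (n - tri r)/2^a ≤ X/2^a`, `k ≤ 2K`: `s' ≤ k m ≤ 2 K (X/2^a)`.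
`k` is a prime factor of `24 s' - 1`, `0 < 24 s' - 1 ≤ 48 K (X/2^a) ≤ 48 K 2^a X`: at most `D` values of `k` for each `s'`; `s'` and `k` determine `m`; `r ≤ Nat.sqrt (2X)`; `n = tri r + 2^a m`. -/
def LTY3_stmt : Prop := ∀ f a K X D : ℕ,
  (∀ m : ℕ, 0 < m → m ≤ 48 * (K * 2 ^ a * X) → #m.primeFactors ≤ D) →
  Set.ncard {x : ℕ × ℕ | x.1 ∈ PM K ∧ x.2 ≤ X ∧ VL f a x.1 x.2} ≤
    D * (Nat.sqrt (2 * X) + 1) * sN f (2 * K * (X / 2 ^ a))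

/-- **RTY3** (medium, 130 lines; compare Pool/Agent/helper11/EP/RTY.lean; uses MUL of Pool/Agent/helper82/OG/Spec.lean). The pairs with a right value of parity `e`. Proof. `s = (j M + 1)/24`, `j = k 2^a - 3w^2 < 2 K 2^a`, `0 < M ≤ 24 X` (`M = 24n+3-2^a`,
`a ≥ 3`), so `24 s ≤ j M + 1 ≤ 48 K 2^a X`, `s ≤ 2 K 2^a X`. `M = r0 p₁ p₂` divides `24 s - 1`, and `p₁`, `p₂` are prime factors of it: for each `s` at most `D²` values of `M`, hence of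
`n`, and then `j = (24s-1)/M` is fixed. For fixed `j` the number of `k ≤ 2K` is at most `2 (Nat.sqrt (2K 2^a)/2^(a-1) + 1)` by MUL (with `2K` for `K`). -/
def RTY3_stmt : Prop := ∀ e a y K X D : ℕ, 3 ≤ a →
  (∀ m : ℕ, 0 < m → m ≤ 48 * (K * 2 ^ a * X) → #m.primeFactors ≤ D) →
  Set.ncard {x : ℕ × ℕ | x.1 ∈ PM K ∧ x.2 ≤ X ∧ SpK a y x.1 x.2 ∧ VR e a x.1 x.2} ≤
    2 * D ^ 2 * (Nat.sqrt (2 * K * 2 ^ a) / 2 ^ (a - 1) + 1) * sN e (2 * K * 2 ^ a * X)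

/-- **CNB3** (medium, 100 lines: compare CNB, Pool/Agent/helper65/EP/CNB.lean; from EVB3, XT1, XB3, LTY3, RTY3). The main inequality.
Proof. For `k ∈ R` the set of the hypothesis has at least `N` elements `n` (they satisfy `24 n + 3 > 2^a` by SpK); at most the sum of the bounds XT1, XB3 of them are exceptional; all the others satisfy
`VL f a k n` or `VR e a k n` (EVB3). Sum over `k` and use LTY3, RTY3. -/
def CNB3_stmt : Prop := ∀ (e f a y K X D N : ℕ) (R : Finset ℕ), e < 2 → f < 2 → 3 ≤ a → 3 ≤ y →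
  2 * K * 2 ^ a ≤ y ^ 3 → R ⊆ PM K →
  (∀ m : ℕ, 0 < m → m ≤ 48 * (K * 2 ^ a * X) → #m.primeFactors ≤ D) →
  (∀ k ∈ R, N ≤ Set.ncard {n : ℕ | n ≤ X ∧ SpK a y k n ∧
    ((1 - f) * #(rs (2 ^ a) n) + (1 - e) * #(ws (k * 2 ^ a))) % 2 = 1}) →
  #R * N ≤ #R * (Nat.sqrt (8 * X + 1) + 1 + 2 * (Nat.sqrt (2 * K * 2 ^ a) + 1) * (X / y + 1)) +
    D * (Nat.sqrt (2 * X) + 1) * sN f (2 * K * (X / 2 ^ a)) +
    2 * D ^ 2 * (Nat.sqrt (2 * K * 2 ^ a) / 2 ^ (a - 1) + 1) * sN e (2 * K * 2 ^ a * X)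

/-! ### Multipliers with an odd number of terms on the right -/

/-- **DIG** (medium, 120 lines, real numbers). Binary digits. Proof. `N = k 2^b`, `x = √(N/12)` (real). The odd `w` with `3w² < 4^i N` are the odd `w < 2^(i+1) x`; `2^(i+1) x` is not an odd integer (`3w² = 4^i N` is impossible as `3` does not divide `N`;
in particular `√` of it is never needed exactly). Write `2^i x = n_i + θ_i`, `n_i` an integer, `-1/2 < θ_i ≤ 1/2`: the number of odd `w ≥ 1` below `2 n_i + 2 θ_i` is `n_i` (also for `n_i = 0`). So `#(ws (4^i N)) = n_i`, all even for `i ≤ h`. By induction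
`|θ_0| ≤ 2^(-i-1)` and `n_i = 2^i n_0`, `θ_i = 2^i θ_0` for `i ≤ h`: step: `2^(i+1) x = 2 n_i + 2 θ_i`, `|2θ_i| ≤ 1`, and `n_(i+1) - 2 n_i` is even and within `1/2` of `2 θ_i`, so it is `0` (if it were `±2`: `|2θ_i| ≥ 3/2`) and `|θ_(i+1)| = |2θ_i| ≤ 1/2`.
Let `n_0 = 2t`: `|x - 2t| ≤ 2^(-h-1)`, and `|N - 48t²| = 12 |x-2t| (x+2t) ≤ 12 * 2^(-h-1) (2x + 1) = 2^(-h) (12 x + 6)`, `12 x = √(12 N) ≤ 3.5 √N`. So `2^h |N - 48 t²| ≤ 3.5 √N + 6 ≤ 8 Nat.sqrt N` when `Nat.sqrt N ≥ 3`. -/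
def DIG_stmt : Prop := ∀ N h : ℕ, 9 ≤ N → ¬ 3 ∣ N → (∀ i ≤ h, #(ws (N * 4 ^ i)) % 2 = 0) →
  ∃ t : ℕ, (2 : ℤ) ^ h * |(N : ℤ) - 48 * (t : ℤ) ^ 2| ≤ 8 * (Nat.sqrt N : ℤ)

open Classical in
/-- **BDK** (short, 70 lines). Few bad `k`. Proof. `s := Nat.sqrt (2K B)`, `Nat.sqrt (k B) ≤ s` for `k ≤ 2K`. `t ≤ s`: `48 t² ≤ kB + 8 s ≤ 2KB + 8s ≤ (s+1)² + 8 s ≤ 48 s² ` (`s ≥ 1`). For each `t ∈ [0, s]` the `k` lie in an interval: `|kB - 48t²| ≤ 8s/2^h`, so their number is at most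
`16 s/(2^h B) + 1`, and `2^h B ≤ s + 1 ≤ 2s` (`(2^h B)² = 4^h B B ≤ K B`), so it is at most `18 s/(2^h B)` (real). Total `≤ (s + 1) 18 s/(2^h B) ≤ 36 s²/(2^h B) ≤ 72 K/2^h`. -/
def BDK_stmt : Prop := ∀ K B h : ℕ, 1 ≤ B → 4 ^ h * B ≤ K →
  2 ^ h * #{k ∈ Ioc K (2 * K) | ∃ t : ℕ,
      (2 : ℤ) ^ h * |((k * B : ℕ) : ℤ) - 48 * (t : ℤ) ^ 2| ≤ 8 * (Nat.sqrt (k * B) : ℤ)} ≤
    72 * K

/-- **PMC** (short, 20 lines; `primes_ap 5016 1465`, Pool/Agent/helper29/OC/PIAP.lean, namespace `Pool.Agent.helper7.OC`). -/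
def PMC_stmt : Prop := ∃ (c : ℝ) (K₀ : ℕ), 0 < c ∧ ∀ K : ℕ, K₀ ≤ K → c * K / Real.log K ≤ (#(PM K) : ℝ)

/-- **GDK** (medium, 100 lines; DIG, BDK, PMC). Proof. `c₁, K₁` from PMC. `B = 2^b`. For `k ∈ PM K` (`k = 1 mod 3`, so `3` does not divide `k B`; `k B ≥ 9`) with `#(ws (k 2^b 4^i))` even for all `i ≤ h` DIG gives a `t` as in BDK. So at most `72 K/2^h` of the `k ∈ PM K` are of this kind, and this is
at most `c₁ K/(2 log K)` if `2^h ≥ (144/c₁) log K`. The other `k`, at least `c₁ K/(2 log K)`, have an `i ≤ h` with an odd number; pigeonhole. (`C ≥ 144/c₁`, `c = c₁/2`.) -/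
def GDK_stmt : Prop := ∃ (c C : ℝ) (K₀ : ℕ), 0 < c ∧ ∀ K b h : ℕ, K₀ ≤ K → 4 ^ h * 2 ^ b ≤ K →
  C * Real.log K ≤ (2 : ℝ) ^ h → ∃ i ≤ h,
    c * K / ((h + 1) * Real.log K) ≤ (#{k ∈ PM K | #(ws (k * 2 ^ (b + 2 * i))) % 2 = 1} : ℝ)

/-! ### The end -/

/-- **MNS** (long, 200 lines, real analysis; LW3, CNB3, PMC, GDK). The inequality with parameters. `L = log X`. Proof. `C₁, X₁` from LW3 (so `C₁` is a constant), `c₂, C₂, K₂` from GDK, `c₃, K₃` from PMC. `C` := a large constant (larger than `8 C₁ + 40` say).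
(1) Choice of `a` and `R`. If `(e, f) = (0, 1)`: GDK with `b`, `h` (`K ≤ X` as `2 K N 4^h 2^b ≤ X`, `N ≥ 1`, so `C₂ log K ≤ C₂ L ≤ L² ≤ 2^h`): `a = b + 2i`, `R` the set, `#R ≥ c₂ K/((h+1) L) ≥ K/L³` (`h + 1 ≤ 2^h`... use `h ≤ L`, from `2^h ≤ L³` and `log L³ ≤ L`). Otherwise `a = b`, `R = PM K`, `#R ≥ c₃ K/L ≥ K/L³`.
In both cases `2^b ≤ 2^a ≤ 4^h 2^b ≤ K`. (2) The hypothesis of CNB3 with `X := N` (its bound for `n`), `y = Nat.sqrt N/4`: LW3 for `N` (`N ≥ X₁` since `N ≥ K 4^h 2^b L^C ≥ 2^b ≥ L^C`; `log N ≤ L`, `(log N)^C₁ ≤ L^C ≤ 2^b ≤ 2^a`; `16 * 4^a ≤ 16 * 4^h 2^b K ≤ N`):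
if `f = 0`: the parity `e'` of `#(rs)` with `e' + (1-e) #(ws (k 2^a))` odd; if `f = 1` (so `e = 0`): any parity, e.g. `e' = 0`, since `#(ws (k 2^a))` is odd for `k ∈ R`. In both cases at least `N' := ⌈N/L^C₁⌉`.
(3) `D = 2 * Nat.log 2 X + 2`: `#m.primeFactors ≤ Nat.log 2 m` (`2^ω(m) ≤ m`), `m ≤ 48 K 2^a N ≤ 24 X ≤ X²`... so `D` is a bound; `D ≤ 4 L` .. `≤ L²`. (4) Exceptional terms: `Nat.sqrt (8N+1) + 1 ≤ 4 √N`, `N/y + 1 ≤ 10 √N`, `Nat.sqrt (2K 2^a) + 1 ≤ 3 √(K 2^a)`, total `≤ 64 √(K 2^a) √N`, and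
`K 2^a ≤ K 4^h 2^b ≤ N/L^C`, so the total is `≤ 64 N/L^(C/2) ≤ N/(2 L^C₁) ≤ N'/2`. The condition `2K 2^a ≤ y³`: `2 K 2^a ≤ 2N/L^C ≤ (√N/5)³`. (5) So `#R N'/2 ≤ D (Nat.sqrt (2N) + 1) sN f (..) + 2D² (..) sN e (..)`. `2 K (N/2^a) ≤ 2KN/2^b ≤ Z`, `2 K 2^a N ≤ 2 K N 4^h 2^b ≤ X`, `sN` is monotone.
`Nat.sqrt (2K 2^a)/2^(a-1) + 1 ≤ 3 √(K/2^a) + 1 ≤ 4 √(K/2^b)`. `#R N' ≥ K N/L^(3 + C₁)`. One of the two terms is at least `K N/(4 L^(3+C₁))`: first: `K N ≤ 4 L^(3+C₁) L² 3 √N sN f Z ≤ L^C √N sN f Z`; second: `K N ≤ 4 L^(3+C₁) 2 L⁴ 4 √(K/2^b) sN e X ≤ L^C √(K/2^b) sN e X`. -/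
def MNS_stmt : Prop := ∃ C X₀ : ℕ, ∀ X Z b h K N e f : ℕ, X₀ ≤ X → e < 2 → f < 2 → ¬ (e = 1 ∧ f = 1) →
  Real.log X ^ C ≤ (2 : ℝ) ^ b → Real.log X ^ 2 ≤ (2 : ℝ) ^ h → (2 : ℝ) ^ h ≤ Real.log X ^ 3 →
  4 ^ h * 2 ^ b ≤ K → (K : ℝ) * (4 ^ h * 2 ^ b) * Real.log X ^ C ≤ N →
  2 * K * N * (4 ^ h * 2 ^ b) ≤ X → 2 * K * N ≤ Z * 2 ^ b →
  (K : ℝ) * N ≤ Real.log X ^ C * (√N * sN f Z) ∨
    (K : ℝ) * N ≤ Real.log X ^ C * (√((K : ℝ) / 2 ^ b) * sN e X)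

/-- **TQ** (short, 60 lines; `Pool.Agent.EP.all_RESA`, `Pool.Agent.OD.all_FIN` (Pool/Agent/helper83/OD/AllO.lean)). The exponent `3/4` for both parities. Proof. `c X^(3/4)/(log X)^(3/2)` resp. `c X^(3/4)/(log X)²`; `(log X)^3 c ≥ (log X)^2` for large `X`. -/
def TQ_stmt : Prop := ∃ X₀ : ℕ, ∀ X e : ℕ, X₀ ≤ X → e < 2 → (X : ℝ) ^ (3 / 4 : ℝ) ≤ Real.log X ^ 3 * sN e X

/-- **FIN** (long, 250 lines, real analysis; MNS, TQ). The theorem. `L = log X`, `C₁` from MNS. Constants: `c₁, c₂, c₄` large (for instance `c₂ = 10 C₁ + 100`, `c₁ = c₄ = 10 c₂`), `C` much larger. Write `E = sN e X`, `F = sN f Z`. We may assume `Z ≥ 1`. (a) `Z ≤ √X L^c₁`: TQ: `E √X ≥ X^(5/4)/L³ ≥ X √Z/L^(3 + c₁/2)`.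
(b) `Z ≥ X/L^c₄`: TQ at `X` and `Z` (`Z ≥ X₀`): `E F ≥ X^(3/4) Z^(3/4)/L⁶ ≥ X √Z/L^(6 + c₄/4)`. (c) `F ≥ X^(1/4) √Z/L^c₂`: `E F ≥ X √Z/L^(3+c₂)`. (d) Otherwise. `h` := the least integer with `L² ≤ 2^h` (so `2^h ≤ 2L² ≤ L³`), `b` := the largest integer with `4^b 4^h ≤ X/Z` (exists since `X/Z ≥ L^c₄ ≥ 4^h`); so
`4^(b+1) 4^h > X/Z`, `2^b ≥ √(X/Z)/(2 * 2^h) ≥ L^C₁`. `A₀ = 2^b`. `P = Z A₀/2 - 1` (real) or so: `K := max (4^h A₀) ⌈F² L^(2C₁ + 2)/(Z A₀)⌉`, `N := ⌊Z A₀/(2K)⌋`. Then `2 K N ≤ Z A₀`, `2 K N 4^h A₀ ≤ Z A₀² 4^h ≤ X`. `K² A₀ 4^h L^(C₁) 4 ≤ Z A₀`: for `K = 4^h A₀`: `4 * 4^(3h) A₀² L^C₁ ≤ 4 * 4^(2h) (X/Z) L^C₁ ≤ Z`, true since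
`X/Z ≤ √X/L^c₁`, `Z ≥ √X L^c₁`; for the second value: `K ≤ F² L^(2C₁+2)/(Z A₀) + 1 ≤ 2 F² L^(2C₁+2)/(ZA₀)` (it is larger than `4^h A₀ ≥ 2`), `F² < √X Z/L^(2c₂)`, `K ≤ 2 √X L^(2C₁+2-2c₂)/A₀`, `K² ≤ 4 X L^(4C₁+4-4c₂)/A₀² ≤ 16 * 4^h Z L^(..)` (`X/A₀² ≤ 4 * 4^h Z`). Hence `N ≥ Z A₀/(4K) ≥ K 4^h A₀ L^C₁`.
MNS. First alternative: `K N ≤ L^C₁ √N F`, so `K √N ≤ L^C₁ F`, `K² N ≤ L^(2C₁) F²`; but `K² N ≥ K Z A₀/4 ≥ F² L^(2C₁+2)/4` — contradiction if `F ≥ 1` (if `F = 0` then `K N ≤ 0`, false). Second: `K N ≤ L^C₁ √(K/A₀) E`, `K N ≥ Z A₀/4`: `E ≥ Z A₀ √(A₀/K)/(4 L^C₁)`. If `K = 4^h A₀`: `E ≥ Z A₀/(4 * 2^h L^C₁) ≥ √(XZ)/(8 * 4^h L^C₁)`, so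
`E √X ≥ X √Z/L^C`. If `K ≤ 2F² L^(2C₁+2)/(Z A₀)`: `√(A₀/K) ≥ A₀ √Z/(2 F L^(C₁+1))` and `E F ≥ Z^(3/2) A₀²/(8 L^(2C₁+1)) ≥ √Z X/(32 * 4^h L^(2C₁+1)) ≥ X √Z/L^C`. -/
def FIN_stmt : Prop := ∃ C X₀ : ℕ, ∀ X Z e f : ℕ, X₀ ≤ X → Z ≤ X → e < 2 → f < 2 → ¬ (e = 1 ∧ f = 1) →
  (X : ℝ) * √Z ≤ Real.log X ^ C * (sN e X * max (sN f Z : ℝ) (√X))

end Pool.Agent.TSC
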